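import Pool.Agent.Helper75.CR.St2

/-!
# Project CR (MP_265e56_al), module N8: the case `SL3 ∈ V`
-/

set_option autoImplicit false

namespace Pool.Agent.Helper12.CR

open Pool.Agent.Helper75.CR Helper1.IM

theorem sc_symm {u v : Wd} (h : SC u v) : SC v u := fun a => (h a).symm

theorem sc_trans {u v w : Wd} (h : SC u v) (h' : SC v w) : SC u w := fun a => (h a).trans (h' a)

theorem sc_prd {u v : Wd} (h : SC u v) (hu : Prd u) : Prd v := by
  obtain ⟨i, h1, h2⟩ := hu
  exact ⟨i, (h _).1 h1, (h _).1 h2⟩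

theorem sc_ct {u v : Wd} (h : SC u v) : ct u = ct v := by
  ext i
  rw [mem_ct, mem_ct]
  constructor
  · rintro ⟨b, hb⟩
    exact ⟨b, (h _).1 hb⟩
  · rintro ⟨b, hb⟩
    exact ⟨b, (h _).2 hb⟩

theorem prd_st {s : Wd} (hs : s ≠ []) : Prd (s ++ st s) := by
  obtain ⟨⟨i, b⟩, s', rfl⟩ := List.exists_cons_of_ne_nil hs
  refine ⟨i, ?_, ?_⟩ <;> cases b <;> simp [fl]

theorem ct_st' (s : Wd) : ct (s ++ st s) = ct s := by
  rw [ct_append, ct_st, Finset.union_self]

/-- (A) -/
theorem slA {ρ : FIC} (h : SLc ρ) {s : Wd} (hs : s ≠ []) : ρ.r s (s ++ st s) :=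
  h s _ hs (ct_st' s).symm

/-- (B) -/
theorem slB {ρ : FIC} (h : SLc ρ) (hz : ZZ ρ) {s t : Wd} (hs : s ≠ []) (ht : t ≠ []) : ρ.r s t :=
  ρ.trans' (slA h hs) (ρ.trans' (hz _ _ (prd_st hs) (prd_st ht)) (ρ.symm' (slA h ht)))

theorem jn_ne {α β : FIC} {u v : Wd} (h : Jn α β u v) (hu : u ≠ []) : v ≠ [] := by
  unfold Jn at h
  induction h with
  | refl => exact hu
  | tail _ h1 ih =>
    rcases h1 with h1 | h1
    · exact α.ne'' h1 ih
    · exact β.ne'' h1 ih

/-- (C) -/
theorem jn_ct (hN5 : StN5) {α β : FIC} (hα : P3 α) (hβ : P3 β) {u v : Wd} (h : Jn α β u v)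
    (hu : u ≠ []) : ct u = ct v ∨ ZZ α ∨ ZZ β := by
  unfold Jn at h
  induction h with
  | refl => exact Or.inl rfl
  | @tail b c h0 h1 ih =>
    rcases ih with ih | ih
    · have hb : b ≠ [] := jn_ne h0 hu
      by_cases hc : ct b = ct c
      · exact Or.inl (ih.trans hc)
      · rcases h1 with h1 | h1
        · exact Or.inr (Or.inl (hN5 α hα b c hb h1 hc))
        · exact Or.inr (Or.inr (hN5 β hβ b c hb h1 hc))
    · exact Or.inr ih

/-- If `γ` relates all nonempty words the chain is a chain for `Jm`. -/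
theorem jm_all {α β γ : FIC} (hγ : ∀ s t : Wd, s ≠ [] → t ≠ [] → γ.r s t) {u v : Wd}
    (h : Jn α β u v) (hu : u ≠ []) : Jm α β γ u v := by
  unfold Jn at h
  unfold Jm
  induction h with
  | refl => exact Relation.ReflTransGen.refl
  | @tail b c h0 h1 ih =>
    have hb : b ≠ [] := jn_ne h0 hu
    refine ih.tail ?_
    rcases h1 with h1 | h1
    · exact Or.inl h1
    · exact Or.inr ⟨h1, hγ b c hb (β.ne'' h1 hb)⟩

theorem jm_one {α β γ : FIC} {u v : Wd} (h : α.r u v ∨ (β.r u v ∧ γ.r u v)) : Jm α β γ u v :=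
  Relation.ReflTransGen.single h

/-- Steps from an unpaired word keep the signed letters. -/
theorem sc_step (hN4 : StN4) {ρ : FIC} (h1 : CRF ρ) (h2 : PII ρ) (h3 : P3 ρ) (hn : ¬ SLc ρ)
    {w w' : Wd} (hw : w ≠ []) (hp : ¬ Prd w) (h : ρ.r w w') : SC w w' := by
  by_contra hc
  exact hn (hN4 ρ h1 h2 h3 w w' hw hp h hc)

/-- Steps from a paired word lead to paired words. -/
theorem prd_step (hN4 : StN4) {ρ : FIC} (h1 : CRF ρ) (h2 : PII ρ) (h3 : P3 ρ) (hn : ¬ SLc ρ)
    {w w' : Wd} (hw : w ≠ []) (hp : Prd w) (h : ρ.r w w') : Prd w' := by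
  by_contra hc
  have := sc_step hN4 h1 h2 h3 hn (ρ.ne'' h hw) hc (ρ.symm' h)
  exact hc (sc_prd (sc_symm this) hp)

theorem hN8 (hN4 : StN4) (hN5 : StN5) (hN7 : StN7) : StN8 := by
  intro θ hcr hpi hsl hp3 α β γ hα hβ hγ hαγ u v hJ hg
  by_cases hu : u = []
  · subst hu
    have hv : v = [] := γ.ne' hg rfl
    subst hv
    exact Relation.ReflTransGen.refl
  have hv : v ≠ [] := jn_ne hJ hu
  have cα := hcr.mono hα
  have cβ := hcr.mono hβ
  have cγ := hcr.mono hγ
  have iα := hpi.mono hα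
  have iβ := hpi.mono hβ
  have iγ := hpi.mono hγ
  have pα := hp3.mono hα
  have pβ := hp3.mono hβ
  have pγ := hp3.mono hγ
  have hC := jn_ct hN5 pα pβ hJ hu
  by_cases hct : ct u = ct v
  · -- the same content
    by_cases hsα : SLc α
    · exact jm_one (Or.inl (hsα u v hu hct))
    by_cases hsβ : SLc β
    · exact jm_one (Or.inr ⟨hsβ u v hu hct, hg⟩)
    by_cases hpu : Prd u
    · have hpv : Prd v := by
        have key : ∀ x, Jn α β u x → Prd x := by
          intro x hx
          unfold Jn at hx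
          induction hx with
          | refl => exact hpu
          | @tail b c h0 h1 ih =>
            have hb : b ≠ [] := jn_ne h0 hu
            rcases h1 with h1 | h1
            · exact prd_step hN4 cα iα pα hsα hb ih h1
            · exact prd_step hN4 cβ iβ pβ hsβ hb ih h1
        exact key v hJ
      exact jm_one (Or.inl (hα _ _ (hp3 u v hpu hpv hct)))
    · have key : ∀ x, Jn α β u x → SC u x ∧ ∃ w, SC u w ∧ α.r u w ∧ β.r w x := by
        intro x hx
        unfold Jn at hx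
        induction hx with
        | refl => exact ⟨fun _ => Iff.rfl, u, fun _ => Iff.rfl, α.refl' _, β.refl' _⟩
        | @tail b c h0 h1 ih =>
          have hb : b ≠ [] := jn_ne h0 hu
          obtain ⟨hub, w, huw, haw, hwb⟩ := ih
          have hpb : ¬ Prd b := fun h => hpu (sc_prd (sc_symm hub) h)
          rcases h1 with h1 | h1
          · have hbc : SC b c := sc_step hN4 cα iα pα hsα hb hpb h1
            have hw0 : w ≠ [] := α.ne'' haw hu
            have hpw : ¬ Prd w := fun h => hpu (sc_prd (sc_symm huw) h)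
            obtain ⟨w', h3, h4, h5⟩ := hN7 θ hcr hsl β α hβ hα w b c hw0 hpw
              (sc_trans (sc_symm huw) hub) hbc hwb h1
            exact ⟨sc_trans hub hbc, w', sc_trans huw h3, α.trans' haw h4, h5⟩
          · have hbc : SC b c := sc_step hN4 cβ iβ pβ hsβ hb hpb h1
            exact ⟨sc_trans hub hbc, w, huw, haw, β.trans' hwb h1⟩
      obtain ⟨_, w, _, haw, hwv⟩ := key v hJ
      have hgw : γ.r w v := γ.trans' (γ.symm' (hαγ _ _ haw)) hg
      have j1 : Jm α β γ u w := jm_one (Or.inl haw)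
      exact j1.trans (jm_one (Or.inr ⟨hwv, hgw⟩))
  -- different contents
  have hzγ : ZZ γ := hN5 γ pγ u v hu hg hct
  have hnsc : ¬ SC u v := fun h => hct (sc_ct h)
  rcases hC with hC | hzα | hzβ
  · exact absurd hC hct
  · -- `ZZ α`
    by_cases hpu : Prd u
    · by_cases hpv : Prd v
      · exact jm_one (Or.inl (hzα u v hpu hpv))
      · have hsγ : SLc γ := hN4 γ cγ iγ pγ v u hv hpv (γ.symm' hg) (fun h => hnsc (sc_symm h))
        exact jm_all (fun s t hs ht => slB hsγ hzγ hs ht) hJ hu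
    · have hsγ : SLc γ := hN4 γ cγ iγ pγ u v hu hpu hg hnsc
      exact jm_all (fun s t hs ht => slB hsγ hzγ hs ht) hJ hu
  · -- `ZZ β`
    by_cases hpu : Prd u
    · by_cases hpv : Prd v
      · exact jm_one (Or.inr ⟨hzβ u v hpu hpv, hg⟩)
      · have hsγ : SLc γ := hN4 γ cγ iγ pγ v u hv hpv (γ.symm' hg) (fun h => hnsc (sc_symm h))
        exact jm_all (fun s t hs ht => slB hsγ hzγ hs ht) hJ hu
    · have hsγ : SLc γ := hN4 γ cγ iγ pγ u v hu hpu hg hnsc
      exact jm_all (fun s t hs ht => slB hsγ hzγ hs ht) hJ hu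

end Pool.Agent.Helper12.CR
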